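import Pool.Agent.BSE.Stmts

/-!
# SPN: the functions of a Bose representation are finite sums of powers
-/

open MeasureTheory Matrix Finset
open scoped ComplexConjugate

namespace Pool.Agent.BSE.H3

open Pool.Agent.Helper64_FR

variable {n : ℕ}

/-- the extremal vector is a power of a bilinear form -/
theorem orb_eq (k : ℕ) (p q : Fin n) (g : UU n) (M : Matrix (Fin n) (Fin n) ℂ) :
    orb k p q g M = bil (fun j => (g : Matrix (Fin n) (Fin n) ℂ) j q)
      (fun i => (g : Matrix (Fin n) (Fin n) ℂ) i p) M ^ k := by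
  have h1 : ∀ i, ((g⁻¹ : UU n) : Matrix (Fin n) (Fin n) ℂ) p i =
      conj ((g : Matrix (Fin n) (Fin n) ℂ) i p) := fun i => rfl
  unfold orb bil
  congr 1
  rw [Matrix.mul_apply]
  simp only [Matrix.mul_apply, Finset.sum_mul, h1]
  rw [Finset.sum_comm]

/-- two different columns of a unitary matrix are orthogonal -/
theorem orth {p q : Fin n} (hpq : p ≠ q) (g : UU n) :
    ∑ i, conj ((g : Matrix (Fin n) (Fin n) ℂ) i p) * (g : Matrix (Fin n) (Fin n) ℂ) i q = 0 := by
  have h1 : ((g⁻¹ * g : UU n) : Matrix (Fin n) (Fin n) ℂ) p q = 0 := by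
    rw [inv_mul_cancel]
    exact Matrix.one_apply_ne hpq
  have h2 : ((g⁻¹ * g : UU n) : Matrix (Fin n) (Fin n) ℂ) p q =
      ∑ i, conj ((g : Matrix (Fin n) (Fin n) ℂ) i p) * (g : Matrix (Fin n) (Fin n) ℂ) i q := rfl
  rw [← h2]
  exact h1

/-- SPN -/
theorem spn : SPNStmt := by
  intro n k ρ p q hpq T hT v
  have h1 : T v ∈ Submodule.span ℂ (Set.range (orb k p q)) := by
    rw [← hT.range_eq]
    exact LinearMap.mem_range_self T v
  rw [Finsupp.mem_span_range_iff_exists_finsupp] at h1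
  obtain ⟨c, hc⟩ := h1
  refine ⟨c.support.card, fun t => c (c.support.equivFin.symm t),
    fun t j => ((c.support.equivFin.symm t : UU n) : Matrix (Fin n) (Fin n) ℂ) j q,
    fun t i => ((c.support.equivFin.symm t : UU n) : Matrix (Fin n) (Fin n) ℂ) i p,
    fun t => orth hpq _, fun M => ?_⟩
  rw [← hc, Finsupp.sum, Finset.sum_apply]
  rw [← Finset.sum_coe_sort, ← (c.support.equivFin.symm).sum_comp]
  refine Finset.sum_congr rfl fun t _ => ?_
  rw [Pi.smul_apply, smul_eq_mul, orb_eq]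

end Pool.Agent.BSE.H3
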